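import Pool.Agent.E8helper87.CN.Stm

/-!
# Project CN, SUM3
-/

set_option autoImplicit false

open Filter Topology

namespace Pool.Agent.E8helper41.CN

open Pool.Agent.Y692.QS (Ei w nr)
open Pool.Agent.E8helper87.CN

lemma sum_one : Summable fun a : ℤ => (((1 : ℝ) + |(a : ℝ)|) ^ 2)⁻¹ := by
  have h1 : Summable fun n : ℤ => 1 / (n : ℝ) ^ 2 := Real.summable_one_div_int_pow.2 (by norm_num)
  have h2 : Summable fun n : ℤ => if n = 0 then (1 : ℝ) else 0 := by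
    refine summable_of_hasFiniteSupport ((Set.finite_singleton (0 : ℤ)).subset ?_)
    intro n hn
    by_contra h
    exact hn (if_neg h)
  refine Summable.of_nonneg_of_le (fun a => by positivity) (fun a => ?_) (h1.add h2)
  by_cases h : a = 0
  · subst h
    simp
  · rw [if_neg h, add_zero, one_div]
    have h3 : (a : ℝ) ≠ 0 := by exact_mod_cast h
    have h4 : 0 < |(a : ℝ)| := abs_pos.2 h3
    apply inv_anti₀ (by positivity)
    rw [← sq_abs (a : ℝ)]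
    nlinarith

lemma nr_le {a b : ℤ} {N : ℤ} (hN : N = a ^ 2 - a * b + b ^ 2) (h : N ≠ 0) :
    (((1 : ℝ) + |(a : ℝ)|) ^ 2) * (((1 : ℝ) + |(b : ℝ)|) ^ 2) ≤ 64 * (N : ℝ) ^ 3 := by
  have h1 : a ^ 2 + b ^ 2 ≤ 2 * N := by rw [hN]; nlinarith [sq_nonneg (a - b)]
  have h0 : 1 ≤ N := by
    have : 0 ≤ N := by nlinarith [sq_nonneg a, sq_nonneg b]
    omega
  have h1' : (a : ℝ) ^ 2 + (b : ℝ) ^ 2 ≤ 2 * N := by exact_mod_cast h1
  have h0' : (1 : ℝ) ≤ N := by exact_mod_cast h0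
  set x := |(a : ℝ)| with hx
  set y := |(b : ℝ)| with hy
  have hx0 : 0 ≤ x := abs_nonneg _
  have hy0 : 0 ≤ y := abs_nonneg _
  have hxy : x ^ 2 + y ^ 2 ≤ 2 * N := by rw [hx, hy, sq_abs, sq_abs]; exact h1'
  have h2 : (1 + x) * (1 + y) ≤ 8 * N := by
    nlinarith [sq_nonneg (x - 1), sq_nonneg (y - 1), sq_nonneg (x - y)]
  have h3 : 0 ≤ (1 + x) * (1 + y) := by positivity
  calc (1 + x) ^ 2 * (1 + y) ^ 2 = ((1 + x) * (1 + y)) ^ 2 := by ring
    _ ≤ (8 * (N : ℝ)) ^ 2 := pow_le_pow_left₀ h3 h2 2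
    _ = 64 * (N : ℝ) ^ 2 := by ring
    _ ≤ 64 * (N : ℝ) ^ 3 := by
        have : (N : ℝ) ^ 2 ≤ (N : ℝ) ^ 3 := pow_le_pow_right₀ h0' (by norm_num)
        linarith

theorem t_SUM3 : S_SUM3 := by
  have h1 : Summable fun p : ℤ × ℤ => (((1 : ℝ) + |(p.1 : ℝ)|) ^ 2)⁻¹ *
      (((1 : ℝ) + |(p.2 : ℝ)|) ^ 2)⁻¹ :=
    sum_one.mul_of_nonneg sum_one (fun a => by positivity) (fun a => by positivity)
  have hinj : Function.Injective (fun z : Ei => ((z.re, z.im) : ℤ × ℤ)) := by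
    intro z z' h
    have h2 := congrArg Prod.fst h
    have h3 := congrArg Prod.snd h
    exact QuadraticAlgebra.ext h2 h3
  have h2 := (h1.comp_injective hinj).mul_left 64
  refine Summable.of_nonneg_of_le (fun z => ?_) (fun z => ?_) h2
  · have : (0 : ℤ) ≤ nr z := by
      unfold nr
      nlinarith [sq_nonneg (z.re - z.im), sq_nonneg z.re, sq_nonneg z.im]
    have : (0 : ℝ) ≤ nr z := by exact_mod_cast this
    positivity
  · show ((nr z : ℝ) ^ 3)⁻¹ ≤ 64 * ((((1 : ℝ) + |(z.re : ℝ)|) ^ 2)⁻¹ *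
      (((1 : ℝ) + |(z.im : ℝ)|) ^ 2)⁻¹)
    by_cases h : nr z = 0
    · rw [h]
      norm_num
      positivity
    · have h3 := nr_le (a := z.re) (b := z.im) (N := nr z) (by unfold nr; ring) h
      have hp : (0 : ℝ) < (((1 : ℝ) + |(z.re : ℝ)|) ^ 2) * (((1 : ℝ) + |(z.im : ℝ)|) ^ 2) := by
        positivity
      have h4 : (0 : ℝ) < (nr z : ℝ) ^ 3 := by linarith
      rw [← mul_inv, inv_eq_one_div, inv_eq_one_div, mul_one_div, div_le_div_iff₀ h4 hp]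
      linarith

end Pool.Agent.E8helper41.CN
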